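import Pool.Agent.V1157.BD.Defs
import Mathlib.CategoryTheory.Endomorphism

/-!
# Finite groups acting on cycles and cohomology classes: definitions
-/

open CategoryTheory AlgebraicGeometry

universe u v w

namespace Pool.Agent.V1157.FG

open Pool.Agent.H914 Pool.Agent.H914.VarClass Pool.Agent.H914.VarClass.Obj Pool.Agent.W492.BB

variable {k : Type u} [Field k] {𝒱 : VarClass k} {K : Type w} [Field K]

/-- The class `g_* z = (g⁻¹)^* z`, for an action `α` of the group `G` on the variety `X`, a class `z`
on `X` and `g ∈ G`. -/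
noncomputable def mv {T : TheoryData.{u, v, w} 𝒱 K} {G : Type} [Group G] {X : 𝒱.Obj}
    (α : G →* End X) (g : G) (z : T.A X) : T.A X := T.up (α g⁻¹ : X ⟶ X) z

/-- The element `f` of the group algebra `K[G]` of the finite group `G` applied to the class `z` on
the variety `X`, for an action `α` of `G` on `X`. -/
noncomputable def app {T : TheoryData.{u, v, w} 𝒱 K} {G : Type} [Group G] [Fintype G] {X : 𝒱.Obj}
    (α : G →* End X) (f : G → K) (z : T.A X) : T.A X := ∑ g, f g • mv α g z

/-- Let `S` be a variety of dimension `n` and `G` a finite group. There are a variety `V` of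
dimension `n` with an action `α` of `G` and morphisms `p g m : V ⟶ S`, `g ∈ G`, `m < M`, of the same
degree `κ ≠ 0`, with `p h m ∘ α g = p (g⁻¹ h) m`, and a divisor class `a` on `S`, such that for
different `(g, m)` and `(h, l)` the class `(p g m, p h l)_* [V]` on `S × S` is a rational multiple of
`(a × S + S × a) ^ n`. (For `n ≥ 1` and smooth projective varieties over a field of characteristic
zero: `a` is very ample and `V` is a complete intersection in `S^(G × M)` of general divisors stable
under `G`, in multiples of the class of the sum of the pull-backs of `a`, by the theorems of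
Bertini.) -/
def HasEquivariantPower (C : TheoryData.{u, v, 0} 𝒱 ℚ) (n : ℕ) (G : Type) [Group G] (M : ℕ)
    (S : 𝒱.Obj) : Prop :=
  ∃ (V : 𝒱.Obj) (α : G →* End V) (p : G → ℕ → (V ⟶ S)) (a : C.A S) (c κ : ℚ),
    V.dim = n ∧ C.Deg 1 a ∧ κ ≠ 0 ∧
    (∀ g : G, ∀ m < M, C.down (p g m) 1 = κ • (1 : C.A S)) ∧
    (∀ g h : G, ∀ m < M, ∀ l < M, (g, m) ≠ (h, l) → C.down (Obj.lift (p g m) (p h l)) 1 =
      c • (C.up (fst S S) a + C.up (snd S S) a) ^ n) ∧
    ∀ g h : G, ∀ m < M, (α g : V ⟶ V) ≫ p h m = p (g⁻¹ * h) m

end Pool.Agent.V1157.FG
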