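import Pool.Agent.V1157.FG.Defs
import Pool.Agent.V1157.BD.Main
import Mathlib.Data.Fintype.List

/-!
# Finite groups acting on cycles and cohomology classes: the amplification
-/

open CategoryTheory AlgebraicGeometry

universe u v w

namespace Pool.Agent.V1157.FG

open Pool.Agent.H914 Pool.Agent.H914.VarClass Pool.Agent.H914.VarClass.Obj Pool.Agent.W492.BB
  Pool.Agent.W550.Corr Pool.Agent.TH133 Pool.Agent.Y148.BB
open Pool.Agent.V1157.BD (Pw)

set_option linter.unusedSectionVars false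

/-- The linear algebra of the amplification. -/
lemma core {K G V S : Type*} [Field K] [Fintype G] [AddCommGroup V] [Module K V]
    [AddCommGroup S] [Module K S] {M : ℕ} (ps : G → Fin M → V →ₗ[K] S) (BV : Submodule K V)
    (BS : Submodule K S) (hB : ∀ g m, ∀ v ∈ BV, ps g m v ∈ BS) {f : G → K} (hf : f ≠ 0)
    (y : G → Fin M → V) {t : S}
    (hne : ∀ g h m m', (g, m) ≠ (h, m') → ps h m' (y g m) ∈ BS) {κ : K} (hκ : κ ≠ 0)
    (heq : ∀ g m, ps g m (y g m) = κ • t) {c : Fin M → K} (hc : c ≠ 0)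
    (h : ∑ m, c m • ∑ g, f g • y g m ∈ BV) : t ∈ BS := by
  classical
  obtain ⟨m, hm⟩ : ∃ m, c m ≠ 0 := by
    by_contra hcon
    push Not at hcon
    exact hc (funext hcon)
  obtain ⟨g, hg⟩ : ∃ g, f g ≠ 0 := by
    by_contra hcon
    push Not at hcon
    exact hf (funext hcon)
  have h2 := hB g m _ h
  rw [map_sum, ← Finset.add_sum_erase _ _ (Finset.mem_univ m)] at h2
  have h4 : ∑ m' ∈ Finset.univ.erase m, ps g m (c m' • ∑ g', f g' • y g' m') ∈ BS := by
    refine Submodule.sum_mem _ fun m' hm' => ?_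
    rw [map_smul, map_sum]
    refine Submodule.smul_mem _ _ (Submodule.sum_mem _ fun g' _ => ?_)
    rw [map_smul]
    exact Submodule.smul_mem _ _ (hne _ _ _ _
      fun e => (Finset.mem_erase.1 hm').1 (congrArg Prod.snd e))
  have h5 := Submodule.sub_mem _ h2 h4
  rw [add_sub_cancel_right, map_smul, map_sum, ← Finset.add_sum_erase _ _ (Finset.mem_univ g),
    smul_add] at h5
  have h6 : c m • ∑ g' ∈ Finset.univ.erase g, ps g m (f g' • y g' m) ∈ BS := by
    refine Submodule.smul_mem _ _ (Submodule.sum_mem _ fun g' hg' => ?_)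
    rw [map_smul]
    exact Submodule.smul_mem _ _ (hne _ _ _ _
      fun e => (Finset.mem_erase.1 hg').1 (congrArg Prod.fst e))
  have h7 := Submodule.sub_mem _ h5 h6
  rw [add_sub_cancel_right, map_smul, heq, smul_smul, smul_smul] at h7
  have h8 : c m * f g * κ ≠ 0 := mul_ne_zero (mul_ne_zero hm hg) hκ
  have h9 := Submodule.smul_mem _ (c m * f g * κ)⁻¹ h7
  rwa [smul_smul, mul_assoc (c m) (f g) κ, inv_mul_cancel₀ (by rwa [← mul_assoc]), one_smul] at h9

/-- There are elements of a finite group whose products, in all orders, are different. -/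
lemma exists_words (d : ℕ) : ∃ (G : Type) (_ : Group G) (_ : Fintype G) (g : Fin d → G),
    Function.Injective fun σ : Equiv.Perm (Fin d) => (List.ofFn fun i => g (σ i)).prod := by
  classical
  let P : Type := {l : List (Fin d) // l.Nodup}
  have key : ∀ i : Fin d, ∃ e : Equiv.Perm P, ∀ (l : P) (h : i ∉ l.1),
      e l = ⟨i :: l.1, List.nodup_cons.2 ⟨h, l.2⟩⟩ := by
    intro i
    let φ : P → P := fun l => if h : i ∉ l.1 then ⟨i :: l.1, List.nodup_cons.2 ⟨h, l.2⟩⟩ else l
    obtain ⟨e, he⟩ := Finset.exists_equiv_extend_of_card_eq (α := P) (β := P)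
      (t := Finset.univ) rfl (s := Finset.univ.filter fun l : P => i ∉ l.1) (f := φ)
      (Finset.subset_univ _) (by
        intro l hl l' hl' hll
        simp only [Finset.coe_filter, Finset.mem_univ, true_and, Set.mem_ofPred_eq] at hl hl'
        simp only [φ, dif_pos hl, dif_pos hl'] at hll
        have h1 := congrArg Subtype.val hll
        simp only [List.cons.injEq, true_and] at h1
        exact Subtype.ext h1)
    refine ⟨e.trans (Equiv.subtypeUnivEquiv fun x => Finset.mem_univ x), fun l h => ?_⟩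
    have h1 := he l (by simp only [Finset.mem_filter, Finset.mem_univ, true_and]; exact h)
    change (e l : P) = _
    rw [h1]
    simp only [φ, dif_pos h]
  choose e he using key
  refine ⟨Equiv.Perm P, inferInstance, inferInstance, e, ?_⟩
  have h1 : ∀ (l : List (Fin d)) (hl : l.Nodup), (l.map e).prod ⟨[], List.nodup_nil⟩ = ⟨l, hl⟩ := by
    intro l
    induction l with
    | nil => intro hl; rfl
    | cons i l ih =>
      intro hl
      rw [List.map_cons, List.prod_cons, Equiv.Perm.mul_apply, ih (List.nodup_cons.1 hl).2,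
        he i _ (List.nodup_cons.1 hl).1]
  intro σ τ h
  have h2 : ∀ ρ : Equiv.Perm (Fin d), (List.ofFn fun i => e (ρ i)).prod ⟨[], List.nodup_nil⟩ =
      ⟨List.ofFn ρ, List.nodup_ofFn.2 ρ.injective⟩ := by
    intro ρ
    rw [← h1 (List.ofFn ρ) (List.nodup_ofFn.2 ρ.injective), List.map_ofFn]
    rfl
  have h3 := congrArg (fun q : Equiv.Perm P => q ⟨[], List.nodup_nil⟩) h
  simp only [h2] at h3
  have h4 := List.ofFn_injective (congrArg Subtype.val h3)
  exact Equiv.ext fun i => congrFun h4 i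

/-- The element `∑ c(σ) w(σ)` of the group algebra. -/
lemma sum_words {K G M : Type*} [Field K] [AddCommGroup M] [Module K M] [Fintype G] [DecidableEq G]
    {I : Type*} [Fintype I] (w : I → G) (c : I → K) (m : G → M) :
    ∑ g, (∑ σ, if w σ = g then c σ else 0) • m g = ∑ σ, c σ • m (w σ) := by
  simp_rw [Finset.sum_smul, ite_smul, zero_smul]
  rw [Finset.sum_comm]
  refine Finset.sum_congr rfl fun σ _ => ?_
  rw [Finset.sum_ite_eq, if_pos (Finset.mem_univ _)]

lemma words_ne {K G : Type*} [Field K] [DecidableEq G] {I : Type*} [Fintype I] {w : I → G}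
    (hw : Function.Injective w) {c : I → K} (hc : c ≠ 0) :
    (fun g => ∑ σ, if w σ = g then c σ else 0) ≠ 0 := by
  intro h
  apply hc
  funext σ
  have h1 := congrFun h (w σ)
  simp only [Pi.zero_apply] at h1
  rw [Finset.sum_eq_single σ (fun τ _ hτ => if_neg fun e => hτ (hw e))
    (fun h => absurd (Finset.mem_univ σ) h), if_pos rfl] at h1
  exact h1

variable {k : Type u} [Field k] {𝒱 : VarClass k} {C : TheoryData.{u, v, 0} 𝒱 ℚ} {n : ℕ}
  {G : Type} [Group G]

/-- The data of `HasEquivariantPower`. -/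
structure EP (C : TheoryData.{u, v, 0} 𝒱 ℚ) (n M : ℕ) {S V : 𝒱.Obj} (α : G →* End V)
    (p : G → ℕ → (V ⟶ S)) (a : C.A S) (c κ : ℚ) : Prop where
  dimS : S.dim = n
  dimV : V.dim = n
  ha : C.Deg 1 a
  hκ : κ ≠ 0
  pp : ∀ g : G, ∀ m < M, C.down (p g m) 1 = κ • (1 : C.A S)
  pq : ∀ g h : G, ∀ m < M, ∀ l < M, (g, m) ≠ (h, l) → C.down (Obj.lift (p g m) (p h l)) 1 =
      c • (C.up (fst S S) a + C.up (snd S S) a) ^ n
  act : ∀ g h : G, ∀ m < M, (α g : V ⟶ V) ≫ p h m = p (g⁻¹ * h) m

lemma exists_ep {S : 𝒱.Obj} {M : ℕ} (hS : S.dim = n) (hP : HasEquivariantPower C n G M S) :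
    ∃ (V : 𝒱.Obj) (α : G →* End V) (p : G → ℕ → (V ⟶ S)) (a : C.A S) (c κ : ℚ),
      EP C n M α p a c κ := by
  obtain ⟨V, α, p, a, c, κ, h1, h2, h3, h4, h5, h6⟩ := hP
  exact ⟨V, α, p, a, c, κ, hS, h1, h2, h3, h4, h5, h6⟩

section power

variable {S V : 𝒱.Obj} {M : ℕ} {α : G →* End V} {p : G → ℕ → (V ⟶ S)} {a : C.A S} {c κ : ℚ}

lemma EP.pw (h : EP C n M α p a c κ) {g g' : G} {m m' : ℕ} (hm : m < M) (hm' : m' < M)
    (hne : (g, m) ≠ (g', m')) :
    Pw C n 2 (fun l => if l = 0 then p g m else p g' m') a c κ where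
  dimS := h.dimS
  dimV := h.dimV
  ha := h.ha
  hκ := h.hκ
  pp l hl := by
    by_cases h0 : l = 0
    · rw [if_pos h0]
      exact h.pp g m hm
    · rw [if_neg h0]
      exact h.pp g' m' hm'
  pq l hl l' hl' hll := by
    by_cases h0 : l = 0
    · rw [if_pos h0, if_neg (by omega)]
      exact h.pq g g' m hm m' hm' hne
    · rw [if_neg h0, if_pos (by omega)]
      exact h.pq g' g m' hm' m hm hne.symm

lemma EP.pw1 (h : EP C n M α p a c κ) (g : G) {m : ℕ} (hm : m < M) :
    Pw C n 1 (fun _ => p g m) a c κ where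
  dimS := h.dimS
  dimV := h.dimV
  ha := h.ha
  hκ := h.hκ
  pp l _ := h.pp g m hm
  pq l hl l' hl' hne := absurd (by omega) hne

lemma EP.mv_up {K : Type w} [Field K] {T : TheoryData.{u, v, w} 𝒱 K} (h : EP C n M α p a c κ)
    (hcomp : ∀ {X Y Z : 𝒱.Obj} (f : X ⟶ Y) (f' : Y ⟶ Z) (t : T.A Z),
      T.up f (T.up f' t) = T.up (f ≫ f') t) (g : G) {m : ℕ} (hm : m < M) (t : T.A S) :
    mv α g (T.up (p 1 m) t) = T.up (p g m) t := by
  rw [mv, hcomp, h.act _ _ m hm, inv_inv, mul_one]

end power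

end Pool.Agent.V1157.FG
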