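import Pool.Agent.V1157.FG.ChowDefs
import Pool.Agent.V1157.FG.Core
import Pool.Agent.V1157.GA.Chow

/-!
# Finite groups acting on kernels of Abel-Jacobi maps
-/

open CategoryTheory AlgebraicGeometry

universe u v w

namespace Pool.Agent.V1157.FG

open Pool.Agent.H914 Pool.Agent.H914.VarClass Pool.Agent.H914.VarClass.Obj Pool.Agent.W492.BB
  Pool.Agent.W550.Corr Pool.Agent.TH133 Pool.Agent.Y148.BB
open Pool.Agent.V1157.RC (push_pull_of)

set_option linter.unusedSectionVars false

variable {k : Type u} [Field k] {𝒱 : VarClass k} {C : TheoryData.{u, v, 0} 𝒱 ℚ}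
  [hC : IsChowProj C] {K : Type w} [Field K] {H : WeilTheoryData.{u, v, w} C K}
  [hH : IsWeilProj H] {n r : ℕ} {N : ∀ X : 𝒱.Obj, ℕ → Submodule ℚ (C.A X)}

lemma up_up {X Y Z : 𝒱.Obj} (f : X ⟶ Y) (g : Y ⟶ Z) (t : C.A Z) :
    C.up f (C.up g t) = C.up (f ≫ g) t := by
  rw [TheoryData.up, TheoryData.up, TheoryData.up, C.pull_comp]

/-- **If an element of the group algebra of a finite group has bounded rank on the kernels of the
Abel-Jacobi maps, then these kernels vanish.** -/
theorem injective_of_rank (hN : IsAbelJacobiKernel H N) {G : Type} [Group G] [Fintype G]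
    (hP : ∀ (M : ℕ) (S : 𝒱.Obj), S.dim = n → HasEquivariantPower C n G M S) {f : G → ℚ}
    (hf : f ≠ 0) {D : ℕ} (hD : RankAtMost N n r f D) : AbelJacobiInjective N n r := by
  intro S t hS ht
  obtain ⟨V, α, p, a, b, κ, h⟩ := exists_ep hS (hP (D + 1) S hS)
  obtain ⟨c, hc, hc2⟩ := hD V α (fun m => C.up (p 1 m) t) h.dimV
    (fun m => GA.kernel_pull hN h.dimV h.dimS _ ht)
  have hdeg : C.Deg r t := (hN.deg _ _ _ ht).1
  have key := core (M := D + 1) (fun g m => C.push (p g m)) (⊥ : Submodule ℚ (C.A V))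
    (⊥ : Submodule ℚ (C.A S))
    (fun g m v hv => by
      rw [Submodule.mem_bot] at hv ⊢
      rw [hv, map_zero]) hf (fun g m => C.up (p g m) t) (t := t)
    (fun g g' m m' hne => ?_) (κ := κ) h.hκ (fun g m => push_pull_of (h.pp g m m.2) t) hc ?_
  · exact (Submodule.mem_bot _).1 key
  · rw [Submodule.mem_bot]
    exact WF.push_pull_hom (h.pw m.2 m'.2 (fun e => hne (by
      rw [Prod.mk.injEq] at e ⊢
      exact ⟨e.1, Fin.ext e.2⟩))) H (i := 0) (l := 1) (by omega) (by omega)
      (by omega) (hN.deg _ _ _ ht).1 (hN.deg _ _ _ ht).2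
  · rw [Submodule.mem_bot, ← hc2]
    refine Finset.sum_congr rfl fun m _ => ?_
    rw [app]
    congr 1
    refine Finset.sum_congr rfl fun g _ => ?_
    rw [h.mv_up up_up g m.2]

omit hC hH in
lemma mv_zero {X : 𝒱.Obj} {G : Type} [Group G] (α : G →* End X) (g : G) :
    mv α g (0 : C.A X) = 0 := by
  rw [mv, TheoryData.up, map_zero]

theorem main (hN : IsAbelJacobiKernel H N)
    (hP : ∀ (G : Type) [Group G] [Finite G] (M : ℕ) (S : 𝒱.Obj), S.dim = n →
      HasEquivariantPower C n G M S) :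
    List.TFAE [AbelJacobiInjective N n r,
      ∃ (G : Type) (_ : Group G) (_ : Fintype G) (f : G → ℚ) (D : ℕ), f ≠ 0 ∧
        RankAtMost N n r f D,
      ActAbelian N n r,
      ∃ (d : ℕ) (c : Equiv.Perm (Fin d) → ℚ), c ≠ 0 ∧ ActIdentity N n r d c] := by
  classical
  tfae_have 1 → 2 := by
    intro h
    refine ⟨Unit, inferInstance, inferInstance, fun _ => 1, 0, ?_, ?_⟩
    · intro h0
      exact one_ne_zero (congrFun h0 ())
    · intro X α z hX hz
      refine ⟨fun _ => 1, fun h0 => one_ne_zero (congrFun h0 0), ?_⟩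
      apply Finset.sum_eq_zero
      intro i _
      rw [app, Finset.sum_eq_zero, smul_zero]
      intro g _
      rw [h X _ hX (hz i), mv_zero, smul_zero]
  tfae_have 2 → 1 := by
    rintro ⟨G, _, _, f, D, hf, hD⟩
    exact injective_of_rank hN (hP G) hf hD
  tfae_have 1 → 3 := by
    intro h G _ _ X α g g' z hX hz
    rw [h X z hX hz, mv_zero, mv_zero]
  tfae_have 3 → 2 := by
    intro h
    refine ⟨Equiv.Perm (Fin 3), inferInstance, inferInstance,
      fun x => (if Equiv.swap 0 1 * Equiv.swap 1 2 = x then 1 else 0) -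
        (if Equiv.swap 1 2 * Equiv.swap 0 1 = x then 1 else 0), 0, ?_, ?_⟩
    · intro h0
      have h1 := congrFun h0 (Equiv.swap 0 1 * Equiv.swap 1 2)
      simp only [Pi.zero_apply] at h1
      rw [if_pos trivial, if_neg (by decide), sub_zero] at h1
      exact one_ne_zero h1
    · intro X α z hX hz
      refine ⟨fun _ => 1, fun h0 => one_ne_zero (congrFun h0 0), ?_⟩
      apply Finset.sum_eq_zero
      intro i _
      rw [app]
      simp_rw [sub_smul, ite_smul, one_smul, zero_smul]
      rw [Finset.sum_sub_distrib, Finset.sum_ite_eq, Finset.sum_ite_eq,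
        if_pos (Finset.mem_univ _), if_pos (Finset.mem_univ _),
        h (Equiv.Perm (Fin 3)) X α _ _ (z i) hX (hz i), sub_self]
  tfae_have 1 → 4 := by
    intro h
    refine ⟨0, fun _ => 1, fun h0 => one_ne_zero (congrFun h0 1), ?_⟩
    intro G _ _ X α g z hX hz
    rw [h X z hX hz]
    exact Finset.sum_eq_zero fun σ _ => by rw [mv_zero, smul_zero]
  tfae_have 4 → 2 := by
    rintro ⟨d, c, hc, h⟩
    obtain ⟨G, _, _, g, hg⟩ := exists_words d
    refine ⟨G, inferInstance, inferInstance,
      fun x => ∑ σ, if (List.ofFn fun i => g (σ i)).prod = x then c σ else 0, 0, words_ne hg hc, ?_⟩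
    intro X α z hX hz
    refine ⟨fun _ => 1, fun h0 => one_ne_zero (congrFun h0 0), ?_⟩
    apply Finset.sum_eq_zero
    intro i _
    rw [app, sum_words (fun σ : Equiv.Perm (Fin d) => (List.ofFn fun i => g (σ i)).prod) c
      (fun x => mv α x (z i)), h G X α g (z i) hX (hz i), smul_zero]
  tfae_finish

end Pool.Agent.V1157.FG
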