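import Pool.Agent.V1157.FG.Defs

/-!
# Finite groups acting on kernels of Abel-Jacobi maps: definitions
-/

open CategoryTheory AlgebraicGeometry

universe u v w

namespace Pool.Agent.V1157.FG

open Pool.Agent.H914 Pool.Agent.H914.VarClass Pool.Agent.H914.VarClass.Obj Pool.Agent.W492.BB

variable {k : Type u} [Field k] {𝒱 : VarClass k} {C : TheoryData.{u, v, 0} 𝒱 ℚ}
  (N : ∀ X : 𝒱.Obj, ℕ → Submodule ℚ (C.A X)) (n r : ℕ)

/-- The Abel-Jacobi maps of the varieties of dimension `n` are injective on the homologically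
trivial cycles of codimension `r`, modulo torsion. -/
def AbelJacobiInjective : Prop := ∀ (X : 𝒱.Obj) (z : C.A X), X.dim = n → z ∈ N X r → z = 0

/-- For every action of the finite group `G` on a variety `X` of dimension `n` the element `f` of
the group algebra `ℚ[G]` has rank at most `D` on the kernel `N X r` of the Abel-Jacobi map in
codimension `r`. -/
def RankAtMost {G : Type} [Group G] [Fintype G] (f : G → ℚ) (D : ℕ) : Prop :=
  ∀ (X : 𝒱.Obj) (α : G →* End X) (z : Fin (D + 1) → C.A X), X.dim = n → (∀ i, z i ∈ N X r) →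
    ∃ c : Fin (D + 1) → ℚ, c ≠ 0 ∧ ∑ i, c i • app α f (z i) = 0

/-- Finite groups acting on varieties `X` of dimension `n` act on `N X r` through abelian
quotients. -/
def ActAbelian : Prop :=
  ∀ (G : Type) [Group G] [Finite G] (X : 𝒱.Obj) (α : G →* End X) (g h : G) (z : C.A X),
    X.dim = n → z ∈ N X r → mv α (g * h) z = mv α (h * g) z

/-- Elements `g 1, …, g d` of finite groups acting on varieties `X` of dimension `n` satisfy on
`N X r` the identity `∑ c(σ) g_{σ(1)} g_{σ(2)} ⋯ g_{σ(d)} = 0`, the sum over all permutations `σ`. -/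
def ActIdentity (d : ℕ) (c : Equiv.Perm (Fin d) → ℚ) : Prop :=
  ∀ (G : Type) [Group G] [Finite G] (X : 𝒱.Obj) (α : G →* End X) (g : Fin d → G) (z : C.A X),
    X.dim = n → z ∈ N X r → ∑ σ, c σ • mv α (List.ofFn fun i => g (σ i)).prod z = 0

end Pool.Agent.V1157.FG
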